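import Pool.Agent.H65.NV.PTargets

set_option autoImplicit false

open MeasureTheory Set Filter NumberField NumberField.InfinitePlace
open scoped Real

namespace Pool.Agent.H58.NVP_CTM

open Pool.Agent.H65.CM4 Pool.Agent.H61.NVK Pool.Agent.H89.NV Pool.Agent.H65.NV

variable (k : Type) [Field k] [NumberField k] [IsTotallyReal k]

/-- the cut-off function is measurable -/
theorem meas_Vk (hVKF : T_VKF) (hEMB : T_EMB k) : Measurable (Vk k) := by
  classical
  have h1 : Vk k = (Ioi (0 : ℝ)).piecewise (Vk k) (fun _ => 0) := by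
    funext x
    by_cases hx : x ∈ Ioi (0 : ℝ)
    · rw [piecewise_eq_of_mem _ _ _ hx]
    · rw [piecewise_eq_of_notMem _ _ _ hx]
      have hx0 : x ≤ 0 := not_lt.1 hx
      have hs : Real.sqrt (x / dk k) = 0 :=
        Real.sqrt_eq_zero_of_nonpos (div_nonpos_of_nonpos_of_nonneg hx0 (Nat.cast_nonneg _))
      unfold Vk
      rw [hs]
      simp
  rw [h1]
  exact ContinuousOn.measurable_piecewise (hVKF k).2.1 continuousOn_const measurableSet_Ioi

/-- the densities are measurable and vanish outside a box -/
theorem pf_CTM (hLCU : T_LCU k) (hVKF : T_VKF) (hEMS : T_EMS k) (hEMB : T_EMB k) : T_CTM k := by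
  classical
  intro f q G η hf hG
  have hη : 0 < η := hG.pos
  have hη' : 0 < 1 / η := by positivity
  set B : ℝ := 2 / η + 2 with hB
  have hB0 : 0 < B := by positivity
  have hsupp : ∀ (T : ℝ), 1 ≤ T → ∀ d : Pl k → ℝ, G (fun v => d v / T) ≠ 0 →
      ∀ v, η * T ≤ d v ∧ d v ≤ T / η := by
    intro T hT d hd v
    have hT0 : 0 < T := by linarith
    have h1 : d v / T ∈ Icc η (1 / η) := by
      by_contra hcon
      exact hd (hG.supp _ ⟨v, hcon⟩)
    obtain ⟨h2, h3⟩ := h1
    rw [le_div_iff₀ hT0] at h2
    rw [div_le_iff₀ hT0] at h3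
    refine ⟨h2, h3.trans (le_of_eq (by ring))⟩
  refine ⟨B ^ dg k, by positivity, fun T hT => ⟨?_, ?_, ?_⟩⟩
  · have hT0 : 0 < T := by linarith
    obtain ⟨hfin, hcard⟩ := hLCU ⊤ (fun _ => 0) (T / η) top_ne_bot (by positivity)
    refine ⟨hfin.toFinset, ?_, ?_⟩
    · rw [← Set.ncard_eq_toFinset_card _ hfin]
      refine hcard.trans ?_
      have htop : nm (⊤ : Ideal (𝓞 k)) = 1 := hEMS.2.2.2.2.2.2.2.2.2.1
      rw [htop, Real.one_rpow, div_one, ← mul_pow]
      refine pow_le_pow_left₀ (by positivity) ?_ _
      rw [hB, add_mul]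
      have e1 : 2 * (T / η) = 2 / η * T := by ring
      rw [e1]
      linarith
    · intro D hD
      by_contra hcon
      apply hD
      rw [Set.Finite.mem_toFinset]
      refine ⟨Submodule.mem_top, fun v => ?_⟩
      obtain ⟨h1, h2⟩ := hsupp T hT _ hcon v
      rw [sub_zero, abs_le]
      have : 0 < η * T := by positivity
      exact ⟨by linarith, h2⟩
  · have hT0 : 0 < T := by linarith
    refine ⟨Icc (fun _ => η * T) (fun _ => T / η), measurableSet_Icc, ?_, ?_, ?_⟩
    · rw [Measure.real, Real.volume_Icc_pi, ENNReal.toReal_prod]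
      simp only [ENNReal.toReal_ofReal', Finset.prod_const, Finset.card_univ]
      rw [hEMB.1, ← mul_pow]
      refine pow_le_pow_left₀ (le_max_right _ _) ?_ _
      refine max_le ?_ (by positivity)
      have h1 : 0 < η * T := by positivity
      have e1 : T / η = 1 / η * T := by ring
      have h2 : 1 / η * T ≤ B * T := by
        refine mul_le_mul_of_nonneg_right ?_ hT0.le
        rw [hB]
        have : 2 / η = 1 / η + 1 / η := by ring
        rw [this]; linarith
      linarith
    · rw [Real.volume_Icc_pi]
      exact ENNReal.prod_ne_top fun _ _ => ENNReal.ofReal_ne_top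
    · intro d hd
      by_contra hcon
      apply hd
      exact ⟨fun v => (hsupp T hT d hcon v).1, fun v => (hsupp T hT d hcon v).2⟩
  · intro n m₁ m₂ w e A hn he hA
    have hsD : Measurable (fun d : Pl k → ℝ => sD d) := by
      unfold sD
      exact (Finset.measurable_prod _ fun v _ => measurable_pi_apply v).sqrt
    have hsd : Measurable (fun d : Pl k → ℝ => sd f d) := by
      unfold sd
      exact hsD.div_const _
    have hwt : Measurable (fun d : Pl k → ℝ => wt f (n * nS m₁ * nS m₂) e A d) := by
      unfold wt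
      exact ((meas_Vk k hVKF hEMB).comp ((hsd.const_mul _).const_div _)).div_const _
    have hct : Measurable (fun d : Pl k → ℝ => ct A f d) := by
      unfold ct
      exact ((((hsD.div_const _).log).add_const _).const_mul _).div_const _
    have hGm : Measurable (fun d : Pl k → ℝ => G (fun v => d v / T)) := by
      refine hG.smooth.continuous.measurable.comp ?_
      exact measurable_pi_lambda _ fun v => (measurable_pi_apply v).div_const _
    unfold Dm
    exact hGm.mul (((hwt.mul_const _).mul_const _).mul hct)

end Pool.Agent.H58.NVP_CTM
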